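import Pool.Agent.helper54.V3.SpecT

set_option autoImplicit false

open Complex Metric Set Filter Topology MeasureTheory

noncomputable section

namespace V3

/-- second derivative at the centre -/
lemma KO3_second (h0 : KO0_stmt) (h2 : KO2_stmt) : ∃ C₂ : ℝ, 0 ≤ C₂ ∧
    ∀ (G : ℂ → ℂ) (a : ℂ) (r : ℝ), 0 < r → DifferentiableOn ℂ G (ball a r) →
      InjOn G (ball a r) → ‖iteratedDeriv 2 G a‖ ≤ C₂ * ‖deriv G a‖ / r := by
  obtain ⟨C, hC1, hC⟩ := h2 (1 / 2) (by norm_num) (by norm_num)
  refine ⟨8 * C, by linarith, ?_⟩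
  intro G a r hr hG hinj
  have haB : a ∈ ball a r := mem_ball_self hr
  have hGa : deriv G a ≠ 0 := h0 G (ball a r) isOpen_ball hG hinj a haB
  have hr' : (r : ℂ) ≠ 0 := by exact_mod_cast hr.ne'
  have hmaps : ∀ u ∈ ball (0 : ℂ) 1, a + r * u ∈ ball a r := by
    intro u hu
    rw [mem_ball_zero_iff] at hu
    rw [mem_ball_iff_norm, add_sub_cancel_left, norm_mul, Complex.norm_real, Real.norm_eq_abs,
      abs_of_pos hr]
    nlinarith
  set F : ℂ → ℂ := fun u => (G (a + r * u) - G a) / (r * deriv G a) with hF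
  have hFd : DifferentiableOn ℂ F (ball 0 1) := by
    have h1 : DifferentiableOn ℂ (fun u : ℂ => G (a + r * u)) (ball 0 1) := by
      refine hG.comp ?_ hmaps
      exact ((differentiable_const a).add (differentiable_id.const_mul (r : ℂ))).differentiableOn
    exact (h1.sub_const (G a)).div_const _
  have hFi : InjOn F (ball 0 1) := by
    intro u hu u' hu' h
    have h1 : G (a + r * u) = G (a + r * u') := by
      have hne : (r : ℂ) * deriv G a ≠ 0 := mul_ne_zero hr' hGa
      have h3 := (div_left_inj' hne).mp h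
      linear_combination h3
    have h4 := hinj (hmaps u hu) (hmaps u' hu') h1
    have h5 : (r : ℂ) * u = r * u' := by linear_combination h4
    exact mul_left_cancel₀ hr' h5
  have hF0 : F 0 = 0 := by simp [hF]
  have hF1 : deriv F 0 = 1 := by
    have hGat : HasDerivAt G (deriv G a) (a + r * (0 : ℂ)) := by
      rw [mul_zero, add_zero]
      exact (hG.differentiableAt (isOpen_ball.mem_nhds haB)).hasDerivAt
    have hlin : HasDerivAt (fun u : ℂ => a + r * u) (r : ℂ) 0 := by
      have := ((hasDerivAt_id (0 : ℂ)).const_mul (r : ℂ)).const_add a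
      simpa using this
    have h3 : HasDerivAt (fun u : ℂ => G (a + r * u)) (deriv G a * r) 0 :=
      HasDerivAt.comp (0 : ℂ) (h₂ := G) (h := fun u : ℂ => a + r * u) hGat hlin
    have h4 := (h3.sub_const (G a)).div_const ((r : ℂ) * deriv G a)
    have h5 : deriv G a * r / (r * deriv G a) = 1 := by
      rw [mul_comm]
      exact div_self (mul_ne_zero hr' hGa)
    rw [h5] at h4
    exact h4.deriv
  have hb := hC F hFd hFi hF0 hF1
  have hs : ∀ z ∈ sphere a (r / 2), ‖G z - G a‖ ≤ C * (r * ‖deriv G a‖) := by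
    intro z hz
    have hzn : ‖z - a‖ = r / 2 := mem_sphere_iff_norm.mp hz
    have h1 := hb ((z - a) / r) (by
      rw [mem_closedBall_zero_iff, norm_div, hzn, Complex.norm_real, Real.norm_eq_abs,
        abs_of_pos hr]
      rw [div_div, div_le_iff₀ (by positivity)]
      linarith)
    have h2 : F ((z - a) / r) = (G z - G a) / (r * deriv G a) := by
      simp only [hF]
      rw [mul_div_cancel₀ _ hr', add_sub_cancel]
    rw [h2, norm_div, norm_mul, Complex.norm_real, Real.norm_eq_abs, abs_of_pos hr,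
      div_le_iff₀ (by positivity)] at h1
    exact h1
  have hcl : closedBall a (r / 2) ⊆ ball a r := closedBall_subset_ball (by linarith)
  have hdc : DiffContOnCl ℂ (fun z => G z - G a) (ball a (r / 2)) := by
    refine ⟨(hG.mono (ball_subset_closedBall.trans hcl)).sub_const _, ?_⟩
    rw [closure_ball a (by positivity)]
    exact (hG.continuousOn.mono hcl).sub continuousOn_const
  have h6 := norm_iteratedDeriv_le_of_forall_mem_sphere_norm_le 2 (by positivity : 0 < r / 2) hdc hs
  have h7 : iteratedDeriv 2 (fun z => G z - G a) a = iteratedDeriv 2 G a := by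
    rw [iteratedDeriv_succ, iteratedDeriv_one, iteratedDeriv_succ, iteratedDeriv_one]
    have : deriv (fun z => G z - G a) = deriv G := by
      funext z
      exact deriv_sub_const (G a)
    rw [this]
  rw [h7] at h6
  refine h6.trans (le_of_eq ?_)
  rw [Nat.factorial_two]
  push_cast
  field_simp
  ring

/-- Gronwall along a segment -/
lemma KO3_gron (G : ℂ → ℂ) (Ω : Set ℂ) (hΩ : IsOpen Ω) (hG : DifferentiableOn ℂ G Ω) (S : Set ℂ)
    (hS : Convex ℝ S) (hSO : S ⊆ Ω) (K : ℝ)
    (hK : ∀ x ∈ S, ‖iteratedDeriv 2 G x‖ ≤ K * ‖deriv G x‖) (y z : ℂ) (hy : y ∈ S) (hz : z ∈ S) :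
    ‖deriv G z‖ ≤ ‖deriv G y‖ * Real.exp (K * ‖z - y‖) := by
  have hd : DifferentiableOn ℂ (deriv G) Ω := hG.deriv hΩ
  have hseg : ∀ s ∈ Icc (0 : ℝ) 1, y + (s : ℂ) * (z - y) ∈ S := by
    intro s hs
    have h1 := hS hy hz (by linarith [hs.2] : (0 : ℝ) ≤ 1 - s) hs.1 (by ring)
    have h2 : (1 - s) • y + s • z = y + (s : ℂ) * (z - y) := by
      simp only [real_smul]
      push_cast
      ring
    rwa [h2] at h1
  have hder : ∀ s ∈ Icc (0 : ℝ) 1, HasDerivAt (fun s : ℝ => deriv G (y + (s : ℂ) * (z - y)))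
      (iteratedDeriv 2 G (y + (s : ℂ) * (z - y)) * (z - y)) s := by
    intro s hs
    have hm := hSO (hseg s hs)
    have h1 : HasDerivAt (deriv G) (iteratedDeriv 2 G (y + (s : ℂ) * (z - y)))
        (y + (s : ℂ) * (z - y)) := by
      rw [iteratedDeriv_succ, iteratedDeriv_one]
      exact (hd.differentiableAt (hΩ.mem_nhds hm)).hasDerivAt
    have h2 : HasDerivAt (fun w : ℂ => y + w * (z - y)) (z - y) (s : ℂ) := by
      have := ((hasDerivAt_id (s : ℂ)).mul_const (z - y)).const_add y
      simpa using this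
    have h3 : HasDerivAt (fun w : ℂ => deriv G (y + w * (z - y)))
        (iteratedDeriv 2 G (y + (s : ℂ) * (z - y)) * (z - y)) (s : ℂ) :=
      HasDerivAt.comp (s : ℂ) (h₂ := deriv G) (h := fun w : ℂ => y + w * (z - y)) h1 h2
    exact h3.comp_ofReal
  have hcont : ContinuousOn (fun s : ℝ => deriv G (y + (s : ℂ) * (z - y))) (Icc 0 1) :=
    fun s hs => (hder s hs).continuousAt.continuousWithinAt
  have := norm_le_gronwallBound_of_norm_deriv_right_le
    (f := fun s : ℝ => deriv G (y + (s : ℂ) * (z - y)))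
    (f' := fun s : ℝ => iteratedDeriv 2 G (y + (s : ℂ) * (z - y)) * (z - y))
    (δ := ‖deriv G y‖) (K := K * ‖z - y‖) (ε := 0) (a := 0) (b := 1) hcont
    (fun s hs => (hder s ⟨hs.1, hs.2.le⟩).hasDerivWithinAt) (by simp) (by
      intro s hs
      rw [norm_mul, add_zero]
      have := hK _ (hseg s ⟨hs.1, hs.2.le⟩)
      calc ‖iteratedDeriv 2 G (y + (s : ℂ) * (z - y))‖ * ‖z - y‖
          ≤ (K * ‖deriv G (y + (s : ℂ) * (z - y))‖) * ‖z - y‖ :=
            mul_le_mul_of_nonneg_right this (norm_nonneg _)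
        _ = K * ‖z - y‖ * ‖deriv G (y + (s : ℂ) * (z - y))‖ := by ring) 1 (by simp)
  rw [gronwallBound_ε0] at this
  simpa using this

theorem KO3 (h0 : KO0_stmt) (h2 : KO2_stmt) : KO3_stmt := by
  obtain ⟨C₂, hC0, hC₂⟩ := KO3_second h0 h2
  intro η hη hη1
  have hCη : 0 ≤ C₂ / η := by positivity
  set E : ℝ := Real.exp (C₂ / η) with hE
  have hE1 : 1 ≤ E := Real.one_le_exp hCη
  have hCle : C₂ ≤ C₂ / η := by
    rw [le_div_iff₀ hη]
    nlinarith
  refine ⟨(1 + C₂ / η) * E, by nlinarith, ?_⟩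
  intro G a r hr hG hinj
  have hCC2 : C₂ ≤ (1 + C₂ / η) * E := by nlinarith
  have hCE : E ≤ (1 + C₂ / η) * E := by nlinarith
  have hCE2 : C₂ / η * E ≤ (1 + C₂ / η) * E := by nlinarith
  refine ⟨?_, ?_⟩
  · refine (hC₂ G a r hr hG hinj).trans ?_
    apply div_le_div_of_nonneg_right _ hr.le
    exact mul_le_mul_of_nonneg_right hCC2 (norm_nonneg _)
  · have hsub : ball a ((1 - η) * r) ⊆ ball a r := ball_subset_ball (by nlinarith)
    set S := ball a ((1 - η) * r) with hS
    have hSc : Convex ℝ S := convex_ball _ _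
    have hK : ∀ x ∈ S, ‖iteratedDeriv 2 G x‖ ≤ C₂ / (η * r) * ‖deriv G x‖ := by
      intro x hx
      have hxs : ball x (η * r) ⊆ ball a r := by
        apply ball_subset_ball'
        have := mem_ball.mp hx
        linarith
      have := hC₂ G x (η * r) (by positivity) (hG.mono hxs) (hinj.mono hxs)
      refine this.trans (le_of_eq ?_)
      ring
    have haS : a ∈ S := mem_ball_self (by
      have : 0 < 1 - η := by linarith
      positivity)
    have hexp : ∀ x ∈ S, Real.exp (C₂ / (η * r) * ‖x - a‖) ≤ E := by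
      intro x hx
      apply Real.exp_le_exp.mpr
      have hxa : ‖x - a‖ < (1 - η) * r := mem_ball_iff_norm.mp hx
      have hxa' : ‖x - a‖ ≤ r := by nlinarith
      calc C₂ / (η * r) * ‖x - a‖ ≤ C₂ / (η * r) * r :=
            mul_le_mul_of_nonneg_left hxa' (by positivity)
        _ = C₂ / η := by field_simp
    have hup : ∀ x ∈ S, ‖deriv G x‖ ≤ E * ‖deriv G a‖ := by
      intro x hx
      have h1 := KO3_gron G (ball a r) isOpen_ball hG S hSc hsub _ hK a x haS hx
      refine h1.trans ?_
      rw [mul_comm]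
      exact mul_le_mul_of_nonneg_right (hexp x hx) (norm_nonneg _)
    intro x hx
    refine ⟨?_, ?_, ?_, ?_⟩
    · exact (hup x hx).trans (mul_le_mul_of_nonneg_right hCE (norm_nonneg _))
    · have h1 := KO3_gron G (ball a r) isOpen_ball hG S hSc hsub _ hK x a hx haS
      rw [norm_sub_rev] at h1
      refine h1.trans ?_
      rw [mul_comm]
      exact mul_le_mul_of_nonneg_right ((hexp x hx).trans hCE) (norm_nonneg _)
    · have h1 := hSc.norm_image_sub_le_of_norm_deriv_le (𝕜 := ℂ) (f := G) (C := E * ‖deriv G a‖)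
        (fun y hy => hG.differentiableAt (isOpen_ball.mem_nhds (hsub hy))) hup haS hx
      refine h1.trans ?_
      calc E * ‖deriv G a‖ * ‖x - a‖ ≤ ((1 + C₂ / η) * E) * ‖deriv G a‖ * ‖x - a‖ := by
            apply mul_le_mul_of_nonneg_right _ (norm_nonneg _)
            exact mul_le_mul_of_nonneg_right hCE (norm_nonneg _)
        _ = (1 + C₂ / η) * E * ‖x - a‖ * ‖deriv G a‖ := by ring
    · have hd : DifferentiableOn ℂ (deriv G) (ball a r) := hG.deriv isOpen_ball
      have hb : ∀ y ∈ S, ‖deriv (deriv G) y‖ ≤ C₂ / (η * r) * (E * ‖deriv G a‖) := by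
        intro y hy
        have h1 := hK y hy
        rw [iteratedDeriv_succ, iteratedDeriv_one] at h1
        refine h1.trans ?_
        exact mul_le_mul_of_nonneg_left (hup y hy) (by positivity)
      have h1 := hSc.norm_image_sub_le_of_norm_deriv_le (𝕜 := ℂ) (f := deriv G)
        (C := C₂ / (η * r) * (E * ‖deriv G a‖))
        (fun y hy => hd.differentiableAt (isOpen_ball.mem_nhds (hsub hy))) hb haS hx
      refine h1.trans ?_
      calc C₂ / (η * r) * (E * ‖deriv G a‖) * ‖x - a‖
          = (C₂ / η * E) * (‖x - a‖ / r) * ‖deriv G a‖ := by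
            field_simp
        _ ≤ ((1 + C₂ / η) * E) * (‖x - a‖ / r) * ‖deriv G a‖ := by
            apply mul_le_mul_of_nonneg_right _ (norm_nonneg _)
            exact mul_le_mul_of_nonneg_right hCE2 (by positivity)

end V3
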