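import Pool.Agent.helper54.V3.SpecE

set_option autoImplicit false

open Complex Metric Set Filter Topology MeasureTheory

noncomputable section

namespace V3

/-- independence of the height -/
lemma PFO_shift (G : ℂ → ℂ) (hG : Differentiable ℂ G) (hper : ∀ z, G (z + 1) = G z) (η : ℝ) :
    ∫ s in (0 : ℝ)..1, G (s + η * I) = ∫ s in (0 : ℝ)..1, G s := by
  have h := Complex.integral_boundary_rect_eq_zero_of_differentiableOn G 0 (1 + η * I)
    hG.differentiableOn
  have e1 : (1 + (η : ℂ) * I).re = 1 := by simp
  have e2 : (1 + (η : ℂ) * I).im = η := by simp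
  rw [e1, e2] at h
  simp only [zero_re, zero_im, ofReal_zero, zero_mul, add_zero, ofReal_one, zero_add] at h
  have h3 : (∫ y in (0 : ℝ)..η, G (1 + y * I)) = ∫ y in (0 : ℝ)..η, G (y * I) := by
    congr 1
    funext y
    rw [add_comm]
    exact hper _
  rw [h3] at h
  have h4 : (∫ x in (0 : ℝ)..1, G x) - (∫ x in (0 : ℝ)..1, G (x + η * I)) = 0 := by
    have := h
    simp only [smul_eq_mul] at this
    linear_combination this
  exact (sub_eq_zero.mp h4).symm

/-- a continuous periodic function with vanishing Fourier coefficients -/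
lemma PFO_zero (f : ℝ → ℂ) (hf : Continuous f) (hper : Function.Periodic f 1)
    (h0 : ∀ n : ℤ, ∫ s in (0 : ℝ)..1, f s * exp (-(2 * Real.pi * I * n * s)) = 0) (s : ℝ) :
    f s = 0 := by
  have : Fact (0 < (1 : ℝ)) := ⟨one_pos⟩
  have hlc : Continuous (hper.lift : AddCircle (1 : ℝ) → ℂ) := by
    exact continuous_coinduced_dom.mpr hf
  let F : C(AddCircle (1 : ℝ), ℂ) := ⟨hper.lift, hlc⟩
  have hF : ∀ x : ℝ, F (x : AddCircle (1 : ℝ)) = f x := fun x => rfl
  have hc : ∀ n : ℤ, fourierCoeff F n = 0 := by
    intro n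
    rw [fourierCoeff_eq_intervalIntegral F n 0]
    rw [zero_add]
    have : (∫ x in (0 : ℝ)..1, (fourier (-n) (x : AddCircle (1 : ℝ)) : ℂ) • F (x : AddCircle (1 : ℝ)))
        = ∫ s in (0 : ℝ)..1, f s * exp (-(2 * Real.pi * I * n * s)) := by
      congr 1
      funext x
      rw [hF, fourier_coe_apply, smul_eq_mul, mul_comm]
      congr 2
      push_cast
      ring
    rw [this, h0 n, smul_zero]
  have hsum : Summable (fourierCoeff F) := by
    have : fourierCoeff F = fun _ => 0 := funext hc
    rw [this]
    exact summable_zero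
  have hs := has_pointwise_sum_fourier_series_of_summable hsum (s : AddCircle (1 : ℝ))
  have h2 : (fun i : ℤ => fourierCoeff F i • (fourier i (s : AddCircle (1 : ℝ)) : ℂ)) = fun _ => 0 := by
    funext i
    rw [hc i, zero_smul]
  rw [h2] at hs
  have := hs.unique hasSum_zero
  rw [hF] at this
  exact this

theorem PFO : PFO_stmt := by
  intro q t hq ht hper
  have hQd : Differentiable ℂ (fun z : ℂ => q (t * z)) := hq.comp (differentiable_id.const_mul t)
  have hQper : ∀ z : ℂ, q (t * (z + 1)) = q (t * z) := by
    intro z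
    rw [mul_add, mul_one]
    exact hper _
  refine ⟨fun n => ∫ s in (0 : ℝ)..1, q (t * s) * exp (-(2 * Real.pi * I * n * s)), ?_, ?_⟩
  · intro n η
    have hG : Differentiable ℂ (fun z : ℂ => q (t * z) * exp (-(2 * Real.pi * I * n * z))) :=
      hQd.mul (((differentiable_id.const_mul (2 * Real.pi * I * n)).neg).cexp)
    have hGp : ∀ z : ℂ, q (t * (z + 1)) * exp (-(2 * Real.pi * I * n * (z + 1)))
        = q (t * z) * exp (-(2 * Real.pi * I * n * z)) := by
      intro z
      rw [hQper]
      congr 1
      rw [Complex.exp_eq_exp_iff_exists_int]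
      refine ⟨-n, ?_⟩
      push_cast
      ring
    have h1 := PFO_shift _ hG hGp η
    show _ = (∫ s in (0 : ℝ)..1, q (t * s) * exp (-(2 * Real.pi * I * n * s))) * _
    rw [← h1, ← intervalIntegral.integral_mul_const]
    congr 1
    funext s
    rw [ofReal_exp]
    have e : exp (-(2 * Real.pi * I * n * s) : ℂ)
        = exp (-(2 * Real.pi * I * n * (s + η * I))) * exp ((-(2 * Real.pi * n * η) : ℝ) : ℂ) := by
      rw [← Complex.exp_add]
      congr 1
      push_cast
      linear_combination (2 * Real.pi * n * η : ℂ) * I_sq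
    rw [e]
    ring
  · intro h0
    have hreal : ∀ s : ℝ, q (t * s) = 0 := by
      intro s
      refine PFO_zero (fun s : ℝ => q (t * s)) ?_ ?_ h0 s
      · exact hq.continuous.comp (continuous_const.mul continuous_ofReal)
      · intro x
        show q (t * ((x + 1 : ℝ) : ℂ)) = q (t * x)
        push_cast
        exact hQper x
    have hA : AnalyticOnNhd ℂ (fun z : ℂ => q (t * z)) univ := fun z _ => hQd.analyticAt z
    have hz : EqOn (fun z : ℂ => q (t * z)) 0 univ := by
      refine hA.eqOn_zero_of_preconnected_of_mem_closure isPreconnected_univ (mem_univ 0) ?_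
      rw [Metric.mem_closure_iff]
      intro ε hε
      refine ⟨((ε / 2 : ℝ) : ℂ), ⟨hreal _, ?_⟩, ?_⟩
      · simp only [mem_singleton_iff, ofReal_eq_zero]
        positivity
      · rw [dist_zero_left, Complex.norm_real, Real.norm_eq_abs, abs_of_pos (by positivity)]
        linarith
    intro x
    have := hz (mem_univ (x / t))
    simp only [Pi.zero_apply] at this
    rwa [mul_div_cancel₀ _ ht] at this

end V3
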