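import Pool.Agent.helper36.V3.SpecP

set_option autoImplicit false

open Complex Metric Set Filter Topology MeasureTheory MPS

noncomputable section

namespace V3S

lemma KRD_iter {k : ℕ} [NeZero k] (f : Polynomial ℂ) (b : ZMod k → ℂ) (hc : PPS.IsCyc f b)
    (j : ℕ) : (fun z => f.eval z)^[j] (b 0) = b (j : ZMod k) ∧
      HasDerivAt ((fun z => f.eval z)^[j]) (∏ i ∈ Finset.range j, PPS.fd f (b (i : ZMod k)))
        (b 0) := by
  induction j with
  | zero =>
    refine ⟨by simp, ?_⟩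
    simp only [Function.iterate_zero, Finset.range_zero, Finset.prod_empty]
    exact hasDerivAt_id _
  | succ j ih =>
    obtain ⟨h1, h2⟩ := ih
    constructor
    · rw [Function.iterate_succ_apply', h1]
      show f.eval (b (j : ZMod k)) = _
      rw [hc.step]
      push_cast
      rfl
    · rw [Function.iterate_succ', Finset.prod_range_succ, mul_comm]
      have h3 : HasDerivAt (fun z => f.eval z) (PPS.fd f (b (j : ZMod k)))
          ((fun z => f.eval z)^[j] (b 0)) := by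
        rw [h1]
        exact f.hasDerivAt _
      exact h3.comp (b 0) h2

lemma KRD_A (D : Dat) (hc : PPS.IsCyc D.f D.b) (hs : D.sg ≠ 0) (j : ℕ) :
    D.A j = ∏ i ∈ Finset.range j, PPS.fd D.f (D.b (i : ZMod D.k)) := by
  have h1 := (KRD_iter D.f D.b hc j).2
  have h2 : HasDerivAt (fun x : ℂ => D.zz x) D.sg 0 := by
    unfold Dat.zz
    have := ((hasDerivAt_id (0 : ℂ)).const_mul D.sg).const_add (D.b 0)
    simpa using this
  have h3 : HasDerivAt (fun x : ℂ => (fun z => D.f.eval z)^[j] (D.zz x))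
      ((∏ i ∈ Finset.range j, PPS.fd D.f (D.b (i : ZMod D.k))) * D.sg) 0 := by
    have h4 : HasDerivAt ((fun z => D.f.eval z)^[j])
        (∏ i ∈ Finset.range j, PPS.fd D.f (D.b (i : ZMod D.k))) (D.zz 0) := by
      unfold Dat.zz
      rw [mul_zero, add_zero]
      exact h1
    exact HasDerivAt.comp (0 : ℂ) (h₂ := (fun z => D.f.eval z)^[j]) (h := fun x : ℂ => D.zz x) h4 h2
  have h5 := (h3.sub_const (D.b 0)).div_const D.sg
  rw [mul_div_cancel_right₀ _ hs] at h5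
  exact h5.deriv

lemma KRD_prod {k : ℕ} [NeZero k] (h : ZMod k → ℂ) (j : ℕ) :
    ∏ l ∈ Finset.Icc 1 j, h ((j : ZMod k) - (l : ZMod k)) = ∏ i ∈ Finset.range j, h (i : ZMod k) := by
  refine Finset.prod_nbij' (fun l => j - l) (fun i => j - i) ?_ ?_ ?_ ?_ ?_
  · intro l hl
    rw [Finset.mem_Icc] at hl
    rw [Finset.mem_range]
    omega
  · intro i hi
    rw [Finset.mem_range] at hi
    rw [Finset.mem_Icc]
    omega
  · intro l hl
    rw [Finset.mem_Icc] at hl
    omega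
  · intro i hi
    rw [Finset.mem_range] at hi
    omega
  · intro l hl
    rw [Finset.mem_Icc] at hl
    rw [Nat.cast_sub hl.2]

theorem KRD (hS : SUD_stmt) (hK : PPS.KRE_stmt) : KRD_stmt := by
  intro n ra Cf η hη
  by_cases hcase : 2 ≤ n ∧ 0 < ra
  swap
  · refine ⟨1, one_pos, ?_⟩
    intro D hD
    exact absurd ⟨hD.hn, hD.ra0⟩ hcase
  obtain ⟨hn, hra⟩ := hcase
  have hδ : 0 < min (η / 5) (1 / 20) := lt_min (by positivity) (by norm_num)
  obtain ⟨R₀, hR₀, ε₀, hε₀, H⟩ := hK n (min (η / 5) (1 / 20)) ra hn hδ (min_le_right _ _) hra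
  set R : ℝ := max R₀ (ra + 1) with hR
  have hraR : ra < R := lt_of_lt_of_le (by linarith) (le_max_right R₀ (ra + 1))
  have hCpos : 0 < 2 * Real.pi + 4 * |Cf R| := by positivity
  refine ⟨ε₀ / (2 * Real.pi + 4 * |Cf R|), by positivity, ?_⟩
  intro D hD hlam j hj
  have hsu := hS n ra Cf D hD R hraR
  have hEb : Eb Cf R D ≤ ε₀ := by
    unfold Eb
    calc (2 * Real.pi + 4 * Cf R) * ‖D.lam‖ ≤ (2 * Real.pi + 4 * |Cf R|) * ‖D.lam‖ := by
          apply mul_le_mul_of_nonneg_right _ (norm_nonneg _)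
          linarith [le_abs_self (Cf R)]
      _ ≤ (2 * Real.pi + 4 * |Cf R|) * (ε₀ / (2 * Real.pi + 4 * |Cf R|)) :=
          mul_le_mul_of_nonneg_left hlam hCpos.le
      _ = ε₀ := mul_div_cancel₀ _ hCpos.ne'
  have hsg : D.sg ≠ 0 := (hD.mx 0).pn.der
  have hψ : ∀ i, deriv (D.ψ i) 0 ≠ 0 := fun i => (hD.mx i).pn.der
  have hA := KRD_A D hD.cyc hsg j
  have hAne : D.A j ≠ 0 := by
    rw [hA]
    exact Finset.prod_ne_zero_iff.mpr fun i _ => hD.cyc.ne0 _
  refine ⟨hAne, hψ _, ?_⟩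
  have hlog : Real.log (‖deriv (D.ψ (j : ZMod D.k)) 0‖ / ‖D.sg‖) - Real.log ‖D.A j‖
      = Real.log ‖PPS.Kq D.f D.b D.ψ (j : ZMod D.k) j‖ := by
    have hKq : PPS.Kq D.f D.b D.ψ (j : ZMod D.k) j
        = deriv (D.ψ (j : ZMod D.k)) 0 / (D.sg * D.A j) := by
      unfold PPS.Kq
      rw [KRD_prod (fun i => PPS.fd D.f (D.b i)) j, ← hA, sub_self]
      rfl
    rw [hKq, norm_div, norm_mul]
    have n1 : ‖deriv (D.ψ (j : ZMod D.k)) 0‖ ≠ 0 := norm_ne_zero_iff.mpr (hψ _)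
    have n2 : ‖D.sg‖ ≠ 0 := norm_ne_zero_iff.mpr hsg
    have n3 : ‖D.A j‖ ≠ 0 := norm_ne_zero_iff.mpr hAne
    rw [Real.log_div n1 n2, Real.log_div n1 (mul_ne_zero n2 n3), Real.log_mul n2 n3]
    ring
  rw [hlog]
  by_cases hj0 : j = 0
  · subst hj0
    have : PPS.Kq D.f D.b D.ψ ((0 : ℕ) : ZMod D.k) 0 = 1 := by
      unfold PPS.Kq
      simp only [Nat.cast_zero, sub_self]
      rw [Finset.Icc_eq_empty (by norm_num), Finset.prod_empty, mul_one, div_self (hψ 0)]
    rw [this, norm_one, Real.log_one, abs_zero]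
    exact hη.le
  · have h1 := H D.k D.f D.b D.g D.ψ R (Eb Cf R D) hsu (le_max_left _ _) hEb (j : ZMod D.k) j
      (Nat.one_le_iff_ne_zero.mpr hj0) hj
    refine h1.trans ?_
    have := min_le_left (η / 5) (1 / 20)
    linarith

end V3S
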